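import Pool.Agent.Helper72.IM.Core2

/-!
# Reduction of forms with a point of multiplicity `≥ d - 1`
-/

open MvPolynomial Pool.Agent.Helper40.IM

namespace Pool.Agent.Helper72.IM

theorem eval_smul_hom {m d : ℕ} (F : MvPolynomial (Fin m) ℂ) (hF : F.IsHomogeneous d) (c : ℂ)
    (z : Fin m → ℂ) : eval (c • z) F = c ^ d * eval z F := by
  rw [eval_eq', eval_eq', Finset.mul_sum]
  refine Finset.sum_congr rfl fun k hk => ?_
  have h1 : ∑ i, k i = d := by
    have h2 := hF (mem_support_iff.1 hk)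
    rw [← h2, Finsupp.weight_apply, Finsupp.sum_fintype _ _ (by simp)]
    simp
  have h3 : ∏ i, (c • z) i ^ k i = c ^ d * ∏ i, z i ^ k i := by
    rw [← h1, ← Finset.prod_pow_eq_pow_sum, ← Finset.prod_mul_distrib]
    refine Finset.prod_congr rfl fun i _ => ?_
    rw [Pi.smul_apply, smul_eq_mul, mul_pow]
  rw [h3]
  ring

theorem affine_line {m : ℕ} (F : MvPolynomial (Fin m) ℂ) (e : Fin m → ℂ)
    (he : ∀ z, ∑ i, ∑ j, e i * e j * eval z (pderiv j (pderiv i F)) = 0) (z : Fin m → ℂ) (s : ℂ) :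
    eval (z + s • e) F = eval z F + s * (eval (z + e) F - eval z F) := by
  have hd : ∀ (P : MvPolynomial (Fin m) ℂ) (s : ℂ),
      HasDerivAt (fun s : ℂ => eval (z + s • e) P) (∑ i, e i * eval (z + s • e) (pderiv i P)) s := by
    intro P s
    have h1 : HasDerivAt (fun s : ℂ => z + s • e) e s := by
      have h2 : HasDerivAt (fun s : ℂ => s • e) ((1 : ℂ) • e) s := (hasDerivAt_id s).smul_const e
      rw [one_smul] at h2
      simpa using h2.const_add z
    have h3 := (hasFDerivAt_eval P (z + s • e)).comp_hasDerivAt s h1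
    refine h3.congr_deriv ?_
    simp [ContinuousLinearMap.sum_apply, mul_comm]
  have h0 : ∀ s : ℂ, ∑ i, e i * eval (z + s • e) (pderiv i F) = ∑ i, e i * eval z (pderiv i F) := by
    have h1 : ∀ s : ℂ, HasDerivAt (fun s : ℂ => ∑ i, e i * eval (z + s • e) (pderiv i F)) 0 s := by
      intro s
      have h2 : HasDerivAt (fun s : ℂ => ∑ i, e i * eval (z + s • e) (pderiv i F))
          (∑ i, e i * ∑ j, e j * eval (z + s • e) (pderiv j (pderiv i F))) s :=
        HasDerivAt.fun_sum fun i _ => (hd (pderiv i F) s).const_mul (e i)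
      have h3 := he (z + s • e)
      have h4 : ∑ i, e i * ∑ j, e j * eval (z + s • e) (pderiv j (pderiv i F)) = 0 := by
        rw [← h3]
        refine Finset.sum_congr rfl fun i _ => ?_
        rw [Finset.mul_sum]
        refine Finset.sum_congr rfl fun j _ => ?_
        ring
      rw [h4] at h2
      exact h2
    intro s
    have h5 := is_const_of_deriv_eq_zero (𝕜 := ℂ) (fun s => (h1 s).differentiableAt)
      (fun s => (h1 s).deriv) s 0
    simpa using h5
  set D : ℂ := ∑ i, e i * eval z (pderiv i F) with hD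
  have h6 : ∀ s : ℂ, eval (z + s • e) F = eval z F + s * D := by
    intro s
    have h7 : ∀ s : ℂ, HasDerivAt (fun s : ℂ => eval (z + s • e) F - s * D) 0 s := by
      intro s
      have h8 : HasDerivAt (fun s : ℂ => eval (z + s • e) F - s * D)
          (∑ i, e i * eval (z + s • e) (pderiv i F) - 1 * D) s :=
        (hd F s).fun_sub ((hasDerivAt_id s).mul_const D)
      rw [h0 s, one_mul, sub_self] at h8
      exact h8
    have h9 := is_const_of_deriv_eq_zero (𝕜 := ℂ) (fun s => (h7 s).differentiableAt)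
      (fun s => (h7 s).deriv) s 0
    simp only [zero_smul, add_zero, zero_mul, sub_zero] at h9
    linear_combination h9
  have h10 := h6 1
  rw [one_smul] at h10
  rw [h6 s, h10]
  ring

/-- Transport of an immersion by a change of coordinates. -/
theorem transport {n : ℕ} (α β : (Fin (n + 1) → ℂ) → (Fin (n + 1) → ℂ))
    (hα : Differentiable ℂ α) (hβ : Differentiable ℂ β) (hβα : ∀ w, β (α w) = w)
    (E₀ : (Fin (n + 1) → ℂ) → ℂ) (hE₀ : Differentiable ℂ E₀)
    (h : ∃ Φ : (Fin (n + 1) → ℂ) → (Fin n → ℂ), Differentiable ℂ Φ ∧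
      ∀ w, E₀ w = 1 → ∀ v, fderiv ℂ E₀ w v = 0 → fderiv ℂ Φ w v = 0 → v = 0)
    (F : MvPolynomial (Fin (n + 1)) ℂ) (hF : ∀ w, eval w F = E₀ (α w)) :
    ∃ f : (Fin (n + 1) → ℂ) → (Fin n → ℂ), Differentiable ℂ f ∧
      ∀ w, eval w F = 1 → ∀ v, ∑ i, v i * eval w (pderiv i F) = 0 →
        fderiv ℂ f w v = 0 → v = 0 := by
  obtain ⟨f, hf, hfw⟩ := h
  have hEd : ∀ w v, fderiv ℂ (fun w => eval w F) w v = fderiv ℂ E₀ (α w) (fderiv ℂ α w v) := by
    intro w v
    rw [funext hF]
    have h1 : HasFDerivAt (fun w => E₀ (α w)) ((fderiv ℂ E₀ (α w)).comp (fderiv ℂ α w)) w :=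
      (hE₀ (α w)).hasFDerivAt.comp w (hα w).hasFDerivAt
    rw [h1.fderiv]
    rfl
  refine ⟨fun w => f (α w), hf.comp hα, fun w hw v hv hv' => ?_⟩
  have h1 : fderiv ℂ α w v = 0 := by
    refine hfw (α w) ?_ _ ?_ ?_
    · rw [← hF w, hw]
    · rw [← hEd, fderiv_eval]
      exact hv
    · have h2 : HasFDerivAt (fun w => f (α w)) ((fderiv ℂ f (α w)).comp (fderiv ℂ α w)) w :=
        (hf (α w)).hasFDerivAt.comp w (hα w).hasFDerivAt
      rw [h2.fderiv] at hv'
      exact hv'
  have h2 : HasFDerivAt (fun w => β (α w)) ((fderiv ℂ β (α w)).comp (fderiv ℂ α w)) w :=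
    (hβ (α w)).hasFDerivAt.comp w (hα w).hasFDerivAt
  have h3 : HasFDerivAt (fun w => β (α w)) (ContinuousLinearMap.id ℂ _) w := by
    rw [funext hβα]
    exact hasFDerivAt_id w
  have h4 := congrArg (fun L => L v) (h3.unique h2)
  simp only [ContinuousLinearMap.comp_apply, h1, map_zero] at h4
  exact h4

/-- The scaling flow. -/
theorem isFlow_scaling (n : ℕ) :
    IsFlow (fun (t : ℂ) (z : Fin n → ℂ) => Complex.exp t • z) where
  diff := by fun_prop
  zero := by simp
  add := by
    intro s t z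
    rw [smul_smul, ← Complex.exp_add]

/-- The reduction of a form with a point of multiplicity `≥ d - 1`. -/
theorem forms_aux {n d : ℕ} (hd : 2 ≤ d) (F : MvPolynomial (Fin (n + 1)) ℂ)
    (hF : F.IsHomogeneous d) (e : Fin (n + 1) → ℂ) (he0 : e ≠ 0)
    (he : ∀ z, ∑ i, ∑ j, e i * e j * eval z (pderiv j (pderiv i F)) = 0)
    (hH : ∀ p q : ℝ, 0 < p → 0 < q → ∃ H : ℂ × ℂ → ℂ, Differentiable ℂ H ∧
      ∀ w g : ℂ, g + fderiv ℂ H (w, g) (-((q : ℂ) - (q - p) * (w * g)), (p : ℂ) * g ^ 2) ≠ 0) :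
    ∃ f : (Fin (n + 1) → ℂ) → (Fin n → ℂ), Differentiable ℂ f ∧
      ∀ w, eval w F = 1 → ∀ v, ∑ i, v i * eval w (pderiv i F) = 0 →
        fderiv ℂ f w v = 0 → v = 0 := by
  obtain ⟨k, hk⟩ : ∃ k, e k ≠ 0 := by
    by_contra hcon
    push_neg at hcon
    exact he0 (funext hcon)
  let ι : (Fin n → ℂ) → (Fin (n + 1) → ℂ) := fun z => Fin.insertNth k (0 : ℂ) z
  have hιk : ∀ z, ι z k = 0 := fun z => Fin.insertNth_apply_same _ _ _
  have hιs : ∀ z i, ι z (k.succAbove i) = z i := fun z i => Fin.insertNth_apply_succAbove _ _ _ _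
  have hι : Differentiable ℂ ι := by
    rw [differentiable_pi]
    intro j
    rcases Fin.eq_self_or_eq_succAbove k j with rfl | ⟨i, rfl⟩
    · simp only [hιk]
      exact differentiable_const _
    · simp only [hιs]
      exact differentiable_apply i
  let β : (Fin (n + 1) → ℂ) → (Fin (n + 1) → ℂ) := fun w => ι (fun i => w i.succ) + w 0 • e
  let α : (Fin (n + 1) → ℂ) → (Fin (n + 1) → ℂ) := fun u =>
    Fin.cons (u k / e k) (fun i => u (k.succAbove i) - u k / e k * e (k.succAbove i))
  have hβ : Differentiable ℂ β := by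
    have h1 : Differentiable ℂ (fun w : Fin (n + 1) → ℂ => (fun i : Fin n => w i.succ)) := by
      rw [differentiable_pi]
      intro i
      exact differentiable_apply _
    have h2 : Differentiable ℂ (fun w : Fin (n + 1) → ℂ => w 0 • e) :=
      (differentiable_apply 0).smul_const e
    exact (hι.comp h1).add h2
  have hα : Differentiable ℂ α := by
    rw [differentiable_pi]
    intro j
    refine Fin.cases ?_ (fun i => ?_) j
    · simp only [α, Fin.cons_zero]
      fun_prop
    · simp only [α, Fin.cons_succ]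
      fun_prop
  have hβα : ∀ u, β (α u) = u := by
    intro u
    ext j
    rcases Fin.eq_self_or_eq_succAbove k j with rfl | ⟨i, rfl⟩
    · simp only [β, α, Pi.add_apply, hιk, Pi.smul_apply, Fin.cons_zero, smul_eq_mul]
      field_simp
      simp
    · simp only [β, α, Pi.add_apply, hιs, Pi.smul_apply, Fin.cons_zero, Fin.cons_succ, smul_eq_mul]
      ring
  let f : (Fin n → ℂ) → ℂ := fun z => eval (ι z) F
  let g : (Fin n → ℂ) → ℂ := fun z => eval (ι z + e) F - eval (ι z) F
  have hf : Differentiable ℂ f := (differentiable_eval F).comp hι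
  have hg : Differentiable ℂ g :=
    ((differentiable_eval F).comp (hι.add_const e)).sub ((differentiable_eval F).comp hι)
  have hιc : ∀ (c : ℂ) z, ι (c • z) = c • ι z := by
    intro c z
    ext j
    rcases Fin.eq_self_or_eq_succAbove k j with rfl | ⟨i, rfl⟩
    · simp [hιk]
    · simp [hιs]
  have hfc : ∀ (c : ℂ) z, f (c • z) = c ^ d * f z := by
    intro c z
    change eval (ι (c • z)) F = c ^ d * eval (ι z) F
    rw [hιc, eval_smul_hom F hF]
  have hgc : ∀ (c : ℂ) z, c ≠ 0 → g (c • z) = c ^ (d - 1) * g z := by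
    intro c z hc
    change eval (ι (c • z) + e) F - eval (ι (c • z)) F = c ^ (d - 1) * (eval (ι z + e) F - eval (ι z) F)
    have h1 : ι (c • z) + e = c • (ι z + c⁻¹ • e) := by
      rw [hιc, smul_add, smul_smul, mul_inv_cancel₀ hc, one_smul]
    rw [h1, hιc, eval_smul_hom F hF, eval_smul_hom F hF, affine_line F e he]
    have h2 : c ^ d = c ^ (d - 1) * c := by
      rw [← pow_succ]
      congr 1
      omega
    rw [h2]
    field_simp
    ring
  have hp : (0 : ℝ) < ((d - 1 : ℕ) : ℝ) := by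
    have : 0 < d - 1 := by omega
    exact_mod_cast this
  have hq : (0 : ℝ) < (d : ℝ) := by
    have : 0 < d := by omega
    exact_mod_cast this
  have hE : ∀ w, eval (β w) F = w 0 * g (fun i => w (Fin.succ i)) + f (fun i => w (Fin.succ i)) := by
    intro w
    change eval (ι (fun i => w i.succ) + w 0 • e) F = _
    rw [affine_line F e he]
    change _ = w 0 * (eval (ι (fun i => w i.succ) + e) F - eval (ι (fun i => w i.succ)) F) +
      eval (ι (fun i => w i.succ)) F
    ring
  obtain ⟨hEd, hΦ⟩ := core2 (fun (t : ℂ) (z : Fin n → ℂ) => Complex.exp t • z) (isFlow_scaling n)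
    g f hg hf ((d - 1 : ℕ) : ℝ) (d : ℝ)
    (by
      intro t z
      rw [hgc _ _ (Complex.exp_ne_zero _), ← Complex.exp_nat_mul]
      push_cast
      rfl)
    (by
      intro t z
      rw [hfc, ← Complex.exp_nat_mul]
      push_cast
      rfl)
    (hH _ _ hp hq) (fun w => eval (β w) F) hE
  exact transport α β hα hβ hβα (fun w => eval (β w) F) hEd hΦ F (fun w => by rw [hβα])

end Pool.Agent.Helper72.IM
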