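import Pool.Agent.Helper40.IM.Core

/-!
# Immersions of the hypersurfaces `w g(z) + f(z) = 1`, `g`, `f` semi-invariants of a flow
-/

open MvPolynomial Pool.Agent.Helper40.IM

namespace Pool.Agent.Helper72.IM

/-- The function `H` of two variables, from `M` and `K`. -/
theorem exists_H_aux (p q : ℝ) (hp : 0 < p) (hq : 0 < q)
    (hM : ∀ c : ℝ, 0 < c → c < 1 → ∃ α : ℝ, ∃ M : ℂ → ℂ, Differentiable ℂ M ∧
      M 1 = 0 ∧ ∀ x : ℂ, x * deriv M x - c * M x = Complex.exp (α * x))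
    (hK : ∀ α c : ℝ, 0 < c → ∃ K : ℂ × ℂ → ℂ, Differentiable ℂ K ∧
      ∀ x y : ℂ, y * fderiv ℂ K (x, y) (x, (c : ℂ) * y) =
        Complex.exp (α * x) * (Complex.exp y - 1) - y) :
    ∃ H : ℂ × ℂ → ℂ, Differentiable ℂ H ∧
      ∀ w g : ℂ, g + fderiv ℂ H (w, g) (-((q : ℂ) - (q - p) * (w * g)), (p : ℂ) * g ^ 2) ≠ 0 := by
  obtain ⟨r, hr⟩ := exists_nat_gt (p / q)
  have hr0 : (0 : ℝ) < r := lt_trans (div_pos hp hq) hr
  have hqr : (0 : ℝ) < q * r := mul_pos hq hr0
  have hc : 0 < p / (q * r) := div_pos hp hqr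
  have hc1 : p / (q * r) < 1 := by
    rw [div_lt_one hqr]
    rw [div_lt_iff₀ hq] at hr
    linarith
  obtain ⟨α, M, hMd, hM1, hMe⟩ := hM _ hc hc1
  obtain ⟨K, hKd, hKe⟩ := hK α _ hc
  set c : ℝ := p / (q * r) with hcdef
  have hpc : (p : ℂ) = (q : ℂ) * r * c := by
    rw [hcdef]
    push_cast
    have : ((q : ℂ) * r) ≠ 0 := by exact_mod_cast hqr.ne'
    rw [mul_div_cancel₀ _ this]
  have hqrC : ((q : ℂ) * r) ≠ 0 := by exact_mod_cast hqr.ne'
  let m : ℂ → ℂ := fun t => M ((1 - t) ^ r)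
  have hmd : ∀ t, HasDerivAt m (deriv M ((1 - t) ^ r) * ((r : ℂ) * (1 - t) ^ (r - 1) * (-1))) t := by
    intro t
    have h1 : HasDerivAt (fun t : ℂ => (1 - t) ^ r) ((r : ℂ) * (1 - t) ^ (r - 1) * (-1)) t := by
      have h2 : HasDerivAt (fun t : ℂ => 1 - t) (-1) t := by
        simpa using (hasDerivAt_id t).const_sub 1
      exact h2.pow r
    exact (hMd _).hasDerivAt.comp t h1
  have hm0 : m 0 = 0 := by
    simp only [m, sub_zero, one_pow]
    exact hM1
  let P : ℂ → ℂ := dslope m 0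
  have hP : Differentiable ℂ P := by
    have h1 : DifferentiableOn ℂ (dslope m 0) Set.univ :=
      (Complex.differentiableOn_dslope (by simp)).2
        (fun t _ => (hmd t).differentiableAt.differentiableWithinAt)
    exact differentiableOn_univ.1 h1
  have hPm : ∀ t, m t = t * P t := by
    intro t
    have := sub_smul_dslope m 0 t
    rw [hm0, sub_zero, sub_zero] at this
    simpa [P] using this.symm
  have hPd : ∀ t, P t + t * deriv P t =
      deriv M ((1 - t) ^ r) * ((r : ℂ) * (1 - t) ^ (r - 1) * (-1)) := by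
    intro t
    have h1 : HasDerivAt m (1 * P t + t * deriv P t) t := by
      rw [funext hPm]
      exact (hasDerivAt_id t).fun_mul (hP t).hasDerivAt
    rw [one_mul] at h1
    exact h1.unique (hmd t)
  let F1 : ℂ × ℂ →L[ℂ] ℂ := ContinuousLinearMap.fst ℂ ℂ ℂ
  let F2 : ℂ × ℂ →L[ℂ] ℂ := ContinuousLinearMap.snd ℂ ℂ ℂ
  let H : ℂ × ℂ → ℂ := fun u => ((q : ℂ) * r)⁻¹ * (u.1 * P (u.1 * u.2) +
    K ((1 - u.1 * u.2) ^ r, u.2))
  have hH : ∀ u : ℂ × ℂ, HasFDerivAt H (((q : ℂ) * r)⁻¹ •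
      ((u.1 • (deriv P (u.1 * u.2) • (u.1 • F2 + u.2 • F1)) + P (u.1 * u.2) • F1) +
        (fderiv ℂ K ((1 - u.1 * u.2) ^ r, u.2)).comp
          ((((r : ℂ) * (1 - u.1 * u.2) ^ (r - 1) * (-1)) • (u.1 • F2 + u.2 • F1)).prod F2))) u := by
    intro u
    have a1 : HasFDerivAt (fun u : ℂ × ℂ => u.1) F1 u := hasFDerivAt_fst
    have a2 : HasFDerivAt (fun u : ℂ × ℂ => u.2) F2 u := hasFDerivAt_snd
    have a3 : HasFDerivAt (fun u : ℂ × ℂ => u.1 * u.2) (u.1 • F2 + u.2 • F1) u := a1.fun_mul a2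
    have a4 : HasFDerivAt (fun u : ℂ × ℂ => P (u.1 * u.2))
        (deriv P (u.1 * u.2) • (u.1 • F2 + u.2 • F1)) u :=
      (hP _).hasDerivAt.comp_hasFDerivAt u a3
    have a5 : HasFDerivAt (fun u : ℂ × ℂ => (1 - u.1 * u.2) ^ r)
        (((r : ℂ) * (1 - u.1 * u.2) ^ (r - 1) * (-1)) • (u.1 • F2 + u.2 • F1)) u := by
      have h2 : HasDerivAt (fun t : ℂ => (1 - t) ^ r)
          ((r : ℂ) * (1 - u.1 * u.2) ^ (r - 1) * (-1)) (u.1 * u.2) := by
        have h3 : HasDerivAt (fun t : ℂ => 1 - t) (-1) (u.1 * u.2) := by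
          simpa using (hasDerivAt_id (u.1 * u.2)).const_sub 1
        exact h3.pow r
      exact h2.comp_hasFDerivAt (f := fun u : ℂ × ℂ => u.1 * u.2) u a3
    have a6 : HasFDerivAt (fun u : ℂ × ℂ => K ((1 - u.1 * u.2) ^ r, u.2))
        ((fderiv ℂ K ((1 - u.1 * u.2) ^ r, u.2)).comp
          ((((r : ℂ) * (1 - u.1 * u.2) ^ (r - 1) * (-1)) • (u.1 • F2 + u.2 • F1)).prod F2)) u :=
      HasFDerivAt.comp (g := K) u (hKd _).hasFDerivAt (a5.prodMk a2)
    exact ((a1.fun_mul a4).add a6).const_mul _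
  refine ⟨H, fun u => (hH u).differentiableAt, fun w g => ?_⟩
  have hmain : g + fderiv ℂ H (w, g) (-((q : ℂ) - (q - p) * (w * g)), (p : ℂ) * g ^ 2) =
      Complex.exp (α * (1 - w * g) ^ r + g) := by
    rw [(hH (w, g)).fderiv]
    set t : ℂ := w * g with ht
    set x : ℂ := (1 - t) ^ r with hx
    have hx' : (1 - t) ^ (r - 1) * (1 - t) = x := by
      rw [hx, ← pow_succ]
      congr 1
      have : r ≠ 0 := by
        rintro rfl
        simp at hr0
      omega
    have e1 : (w • F2 + g • F1) (-((q : ℂ) - (q - p) * t), (p : ℂ) * g ^ 2) =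
        -((q : ℂ) * g * (1 - t)) := by
      simp only [F1, F2, ContinuousLinearMap.add_apply, ContinuousLinearMap.smul_apply,
        ContinuousLinearMap.coe_fst', ContinuousLinearMap.coe_snd', smul_eq_mul]
      rw [ht]
      ring
    have e2 : (((((r : ℂ) * (1 - t) ^ (r - 1) * (-1)) • (w • F2 + g • F1)).prod F2) :
        ℂ × ℂ →L[ℂ] ℂ × ℂ) (-((q : ℂ) - (q - p) * t), (p : ℂ) * g ^ 2) =
        ((q : ℂ) * r * g) • (x, (c : ℂ) * g) := by
      rw [ContinuousLinearMap.prod_apply, ContinuousLinearMap.smul_apply, e1]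
      ext
      · simp only [smul_eq_mul, Prod.smul_fst]
        rw [← hx']
        ring
      · simp only [F2, ContinuousLinearMap.coe_snd', Prod.smul_snd, smul_eq_mul]
        rw [hpc]
        ring
    have e3 := hKe x g
    have e4 := hMe x
    have e5 := hPd t
    have e6 := hPm t
    rw [ContinuousLinearMap.smul_apply, ContinuousLinearMap.add_apply,
      ContinuousLinearMap.comp_apply, e2, map_smul, ContinuousLinearMap.add_apply,
      ContinuousLinearMap.smul_apply, ContinuousLinearMap.smul_apply,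
      ContinuousLinearMap.smul_apply, e1]
    simp only [F1, ContinuousLinearMap.coe_fst', smul_eq_mul]
    have e7 : M x = t * P t := e6
    have e8 : P t + t * deriv P t = -((r : ℂ) * (1 - t) ^ (r - 1) * deriv M x) := by
      rw [e5]
      ring
    have e9 : w * (deriv P t * -((q : ℂ) * g * (1 - t))) + P t * -((q : ℂ) - (q - p) * t) =
        (q : ℂ) * r * (x * deriv M x - c * M x) := by
      have h1 : w * (deriv P t * -((q : ℂ) * g * (1 - t))) + P t * -((q : ℂ) - (q - p) * t) =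
          -(q : ℂ) * (1 - t) * (P t + t * deriv P t) - p * (t * P t) := by
        rw [ht]
        ring
      rw [h1, e8, ← e7, ← hx', hpc]
      ring
    rw [e9, e4, Complex.exp_add]
    have e10 : (q : ℂ) * r * g * (fderiv ℂ K (x, g)) (x, (c : ℂ) * g) =
        (q : ℂ) * r * (Complex.exp (α * x) * (Complex.exp g - 1) - g) := by
      rw [← e3]
      ring
    rw [e10]
    have e11 := inv_mul_cancel₀ hqrC
    linear_combination (Complex.exp (α * x) * Complex.exp g - g) * e11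
  rw [hmain]
  exact Complex.exp_ne_zero _

/-- The analytic core. -/
theorem core2 {n : ℕ} (φ : ℂ → (Fin n → ℂ) → (Fin n → ℂ)) (hφ : IsFlow φ)
    (g f : (Fin n → ℂ) → ℂ) (hg : Differentiable ℂ g) (hf : Differentiable ℂ f) (p q : ℝ)
    (hgφ : ∀ t z, g (φ t z) = Complex.exp (p * t) * g z)
    (hfφ : ∀ t z, f (φ t z) = Complex.exp (q * t) * f z)
    (hH : ∃ H : ℂ × ℂ → ℂ, Differentiable ℂ H ∧
      ∀ w g : ℂ, g + fderiv ℂ H (w, g) (-((q : ℂ) - (q - p) * (w * g)), (p : ℂ) * g ^ 2) ≠ 0)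
    (E : (Fin (n + 1) → ℂ) → ℂ)
    (hE : ∀ w, E w = w 0 * g (fun i => w (Fin.succ i)) + f (fun i => w (Fin.succ i))) :
    Differentiable ℂ E ∧ ∃ Φ : (Fin (n + 1) → ℂ) → (Fin n → ℂ), Differentiable ℂ Φ ∧
      ∀ w, E w = 1 → ∀ v, fderiv ℂ E w v = 0 → fderiv ℂ Φ w v = 0 → v = 0 := by
  obtain ⟨H, hHd, hne⟩ := hH
  let π : (Fin (n + 1) → ℂ) →L[ℂ] ℂ := ContinuousLinearMap.proj 0
  let τ : (Fin (n + 1) → ℂ) →L[ℂ] (Fin n → ℂ) :=
    ContinuousLinearMap.pi fun i => ContinuousLinearMap.proj (Fin.succ i)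
  have hE' : E = fun w => π w * g (τ w) + f (τ w) := by
    ext w
    exact hE w
  have gτ : ∀ w, HasFDerivAt (fun w => g (τ w)) ((fderiv ℂ g (τ w)).comp τ) w := fun w =>
    (hg (τ w)).hasFDerivAt.comp w τ.hasFDerivAt
  have fτ : ∀ w, HasFDerivAt (fun w => f (τ w)) ((fderiv ℂ f (τ w)).comp τ) w := fun w =>
    (hf (τ w)).hasFDerivAt.comp w τ.hasFDerivAt
  have hEd : ∀ w, HasFDerivAt E
      ((π w • (fderiv ℂ g (τ w)).comp τ + g (τ w) • π) + (fderiv ℂ f (τ w)).comp τ) w := by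
    intro w
    rw [hE']
    exact (π.hasFDerivAt.fun_mul (gτ w)).add (fτ w)
  have hEv : ∀ w v, fderiv ℂ E w v = π w * fderiv ℂ g (τ w) (τ v) + g (τ w) * π v +
      fderiv ℂ f (τ w) (τ v) := by
    intro w v
    rw [(hEd w).fderiv]
    simp
  refine ⟨fun w => (hEd w).differentiableAt, ?_⟩
  let h : (Fin (n + 1) → ℂ) → ℂ := fun w => H (π w, g (τ w))
  have hh : ∀ w, HasFDerivAt h
      ((fderiv ℂ H (π w, g (τ w))).comp (π.prod ((fderiv ℂ g (τ w)).comp τ))) w := by
    intro w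
    exact HasFDerivAt.comp (g := H) w (hHd _).hasFDerivAt (π.hasFDerivAt.prodMk (gτ w))
  let Φ : (Fin (n + 1) → ℂ) → (Fin n → ℂ) := fun w => φ (h w) (τ w)
  have hΦ : Differentiable ℂ Φ := by
    have h1 : Differentiable ℂ fun w : Fin (n + 1) → ℂ => (h w, τ w) := fun w =>
      ((hh w).prodMk τ.hasFDerivAt).differentiableAt
    exact hφ.diff.comp h1
  refine ⟨Φ, hΦ, fun w hw v hv hfv => ?_⟩
  set θ : ℂ := fderiv ℂ h w v with hθ
  -- general: a semi-invariant
  have semi : ∀ (G : (Fin n → ℂ) → ℂ) (hG : Differentiable ℂ G) (ρ : ℝ)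
      (hGφ : ∀ t z, G (φ t z) = Complex.exp (ρ * t) * G z),
      fderiv ℂ G (τ w) (τ v) = - ((ρ : ℂ) * G (τ w) * θ) := by
    intro G hG ρ hGφ
    have hgf : ∀ w, G (Φ w) = Complex.exp (ρ * h w) * G (τ w) := fun w => hGφ _ _
    have Gτ : HasFDerivAt (fun w => G (τ w)) ((fderiv ℂ G (τ w)).comp τ) w :=
      (hG (τ w)).hasFDerivAt.comp w τ.hasFDerivAt
    have hgd : HasFDerivAt (fun w => G (Φ w))
        (Complex.exp (ρ * h w) • (fderiv ℂ G (τ w)).comp τ +
          G (τ w) • (Complex.exp (ρ * h w) • ((ρ : ℂ) • fderiv ℂ h w))) w := by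
      rw [funext hgf]
      have h1 : HasFDerivAt (fun w => (ρ : ℂ) * h w) ((ρ : ℂ) • fderiv ℂ h w) w :=
        ((hh w).differentiableAt.hasFDerivAt).const_mul _
      exact h1.cexp.fun_mul Gτ
    have h1 : fderiv ℂ (fun w => G (Φ w)) w v = 0 := by
      have h2 : HasFDerivAt (fun w => G (Φ w)) ((fderiv ℂ G (Φ w)).comp (fderiv ℂ Φ w)) w :=
        (hG (Φ w)).hasFDerivAt.comp w (hΦ w).hasFDerivAt
      rw [h2.fderiv, ContinuousLinearMap.comp_apply, hfv, map_zero]
    rw [hgd.fderiv] at h1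
    simp only [ContinuousLinearMap.add_apply, ContinuousLinearMap.smul_apply,
      ContinuousLinearMap.comp_apply, smul_eq_mul] at h1
    rw [← hθ] at h1
    have h3 : Complex.exp (ρ * h w) * (fderiv ℂ G (τ w) (τ v) + (ρ : ℂ) * G (τ w) * θ) = 0 := by
      linear_combination h1
    rcases mul_eq_zero.1 h3 with h4 | h4
    · exact absurd h4 (Complex.exp_ne_zero _)
    · linear_combination h4
  have hgv := semi g hg p hgφ
  have hfv' := semi f hf q hfφ
  have hX : π w * g (τ w) + f (τ w) = 1 := by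
    rw [hE'] at hw
    exact hw
  set G : ℂ := g (τ w) with hGdef
  have hff : f (τ w) = 1 - π w * G := by linear_combination hX
  -- the equation of the tangent space
  have hv1 : G * π v = θ * ((q : ℂ) - (q - p) * (π w * G)) := by
    rw [hEv, hgv, hfv', hff] at hv
    linear_combination hv
  have hθ2 : fderiv ℂ h w v = fderiv ℂ H (π w, G) (π v, fderiv ℂ g (τ w) (τ v)) := by
    rw [(hh w).fderiv, ContinuousLinearMap.comp_apply, ContinuousLinearMap.prod_apply,
      ContinuousLinearMap.comp_apply]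
  rw [← hθ, hgv] at hθ2
  have hlin : ∀ a b : ℂ, fderiv ℂ H (π w, G) (a, b) =
      a * fderiv ℂ H (π w, G) (1, 0) + b * fderiv ℂ H (π w, G) (0, 1) := by
    intro a b
    have : ((a, b) : ℂ × ℂ) = a • ((1 : ℂ), (0 : ℂ)) + b • ((0 : ℂ), (1 : ℂ)) := by
      ext <;> simp
    rw [this, map_add, map_smul, map_smul, smul_eq_mul, smul_eq_mul]
  rw [hlin] at hθ2
  have hN := hne (π w) G
  rw [hlin] at hN
  set A : ℂ := fderiv ℂ H (π w, G) (1, 0)
  set B : ℂ := fderiv ℂ H (π w, G) (0, 1)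
  have hθ0 : θ = 0 := by
    have h1 : θ * (G + (-((q : ℂ) - (q - p) * (π w * G)) * A + (p : ℂ) * G ^ 2 * B)) = 0 := by
      linear_combination G * hθ2 + A * hv1
    exact (mul_eq_zero.1 h1).resolve_right hN
  have hv0 : π v = 0 := by
    by_cases hG0 : G = 0
    · rw [hθ0] at hθ2
      rw [hG0] at hN
      have hA : A ≠ 0 := by
        intro hA
        apply hN
        rw [hA]
        ring
      have h1 : π v * A = 0 := by linear_combination -hθ2
      exact (mul_eq_zero.1 h1).resolve_right hA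
    · rw [hθ0, zero_mul] at hv1
      exact (mul_eq_zero.1 hv1).resolve_left hG0
  have hτv : τ v = 0 := by
    have h1 : ∀ w, τ w = φ (- h w) (Φ w) := by
      intro w
      change τ w = φ (- h w) (φ (h w) (τ w))
      rw [← hφ.add, neg_add_cancel, hφ.zero]
    have h2 : HasFDerivAt (fun w => (- h w, Φ w)) ((-(fderiv ℂ h w)).prod (fderiv ℂ Φ w)) w :=
      ((hh w).differentiableAt.hasFDerivAt).neg.prodMk (hΦ w).hasFDerivAt
    have h3 : HasFDerivAt (fun w => φ (- h w) (Φ w))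
        ((fderiv ℂ (fun p : ℂ × (Fin n → ℂ) => φ p.1 p.2) (- h w, Φ w)).comp
          ((-(fderiv ℂ h w)).prod (fderiv ℂ Φ w))) w :=
      HasFDerivAt.comp (g := fun p : ℂ × (Fin n → ℂ) => φ p.1 p.2) w
        (hφ.diff (- h w, Φ w)).hasFDerivAt h2
    have h4 : HasFDerivAt (fun w => φ (- h w) (Φ w)) τ w := by
      rw [← funext h1]
      exact τ.hasFDerivAt
    have h5 := congrArg (fun L => L v) (h4.unique h3)
    simp only [ContinuousLinearMap.comp_apply, ContinuousLinearMap.prod_apply, hfv,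
      ContinuousLinearMap.neg_apply, ← hθ, hθ0, neg_zero] at h5
    rw [h5]
    exact map_zero _
  ext i
  refine Fin.cases hv0 (fun j => ?_) i
  exact congrFun hτv j

end Pool.Agent.Helper72.IM
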